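import Pool.Agent.PFJ.Stmts

set_option autoImplicit false

open Matrix Filter Topology

namespace Pool.Agent.PFJ.H90

open Pool.Agent.PFS Pool.Agent.PFJ

variable {n K : ℕ} {C : Set (V n)} {Γ : Subgroup (GL (Fin n) ℝ)}
  {L : Fin K → Submodule ℝ (V n)} {w : Fin K → V n} {β : Fin K → Fin K}

theorem bfa1 (h : PCone C) (hb : Box C Γ L w β) (x : Fin K → V n) (hx : ∀ a, x a ∈ L a)
    (hs : ∑ a, x a = 0) (a : Fin K) : x a = 0 := by
  have h1 : x a ∈ closure C := hb.comp x hx (by rw [hs]; exact h.zero_cl) a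
  have h2 : -x a ∈ closure C := by
    refine hb.comp (fun b => -x b) (fun b => (L b).neg_mem (hx b)) ?_ a
    rw [Finset.sum_neg_distrib, hs, neg_zero]
    exact h.zero_cl
  exact h.salient _ h1 h2

theorem bfa2a (h : PCone C) (hb : Box C Γ L w β) (x : Fin K → V n) (hx : ∀ a, x a ∈ L a)
    (hs : ∑ a, x a ∈ C) (a : Fin K) : Unt C (L a) (x a) := by
  refine ⟨hx a, hb.comp x hx (subset_closure hs) a, fun z hz => ?_⟩
  obtain ⟨M, hM, hMC⟩ := h.absorb hs z
  refine ⟨M, hM, ?_⟩
  have h1 := hb.comp (fun b => M • x b - (if b = a then z else 0)) (fun b => by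
    refine (L b).sub_mem ((L b).smul_mem M (hx b)) ?_
    split_ifs with hba
    · rw [hba]; exact hz
    · exact (L b).zero_mem) (by
    rw [Finset.sum_sub_distrib, ← Finset.smul_sum, Finset.sum_ite_eq' Finset.univ a,
      if_pos (Finset.mem_univ a)]
    exact subset_closure hMC) a
  simpa using h1

/-- the partial sums of the vertices -/
noncomputable def ys (w : Fin K → V n) (β : Fin K → Fin K) (a : Fin K) : V n :=
  ∑ i ∈ Finset.univ.filter (fun i => β i = a), w i

theorem ys_mem (hb : Box C Γ L w β) (a : Fin K) : ys w β a ∈ L a := by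
  refine Submodule.sum_mem _ fun i hi => ?_
  have h1 : β i = a := (Finset.mem_filter.1 hi).2
  have h2 := hb.mem i
  rwa [h1] at h2

theorem ys_sum : ∑ a, ys w β a = ∑ i, w i := by
  unfold ys
  exact Finset.sum_fiberwise Finset.univ β w

theorem sum_w_mem (hb : Box C Γ L w β) : ∑ i, w i ∈ C := by
  have h1 := hb.pes.1.pos (fun _ => 1) (fun _ => one_pos)
  simpa using h1

theorem bfa2b (h : PCone C) (hb : Box C Γ L w β) (x : Fin K → V n)
    (hu : ∀ a, Unt C (L a) (x a)) : ∑ a, x a ∈ C := by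
  choose M hM hMC using fun a => (hu a).2.2 (ys w β a) (ys_mem hb a)
  have hM0 : 0 ≤ ∑ b, M b := Finset.sum_nonneg fun b _ => (hM b).le
  have hMM : 0 < ∑ b, M b + 1 := by linarith
  have key : ∀ a, (∑ b, M b + 1) • x a - ys w β a ∈ closure C := by
    intro a
    have hle : M a ≤ ∑ b, M b := Finset.single_le_sum (fun b _ => (hM b).le) (Finset.mem_univ a)
    have h1 := h.cl_add (hMC a)
      (h.cl_smul (hu a).2.1 (t := ∑ b, M b + 1 - M a) (by linarith))
    have h2 : M a • x a - ys w β a + (∑ b, M b + 1 - M a) • x a =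
        (∑ b, M b + 1) • x a - ys w β a := by
      rw [sub_smul]; abel
    rwa [h2] at h1
  have hsum : ∑ a, ((∑ b, M b + 1) • x a - ys w β a) ∈ closure C := h.cl_sum fun a _ => key a
  rw [Finset.sum_sub_distrib, ← Finset.smul_sum, ys_sum] at hsum
  exact (h.smul_iff hMM).1 (h.mem_of_le (sum_w_mem hb) hsum)

theorem bfa4 (x : V n) (hx : x ∈ ⨆ a, L a) : ∃ y : Fin K → V n, (∀ a, y a ∈ L a) ∧
    ∑ a, y a = x := by
  refine Submodule.iSup_induction L
    (motive := fun x => ∃ y : Fin K → V n, (∀ a, y a ∈ L a) ∧ ∑ a, y a = x) hx ?_ ?_ ?_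
  · intro a z hz
    refine ⟨fun b => if b = a then z else 0, fun b => ?_, ?_⟩
    · change (if b = a then z else 0) ∈ L b
      split_ifs with hba
      · rw [hba]; exact hz
      · exact (L b).zero_mem
    · rw [Finset.sum_ite_eq' Finset.univ a, if_pos (Finset.mem_univ a)]
  · exact ⟨fun _ => 0, fun b => (L b).zero_mem, by simp⟩
  · rintro p q ⟨y, hy, hys⟩ ⟨z, hz, hzs⟩
    exact ⟨fun b => y b + z b, fun b => (L b).add_mem (hy b) (hz b), by
      rw [Finset.sum_add_distrib, hys, hzs]⟩

theorem bfa5 (h : PCone C) (hb : Box C Γ L w β) (a b : Fin K) (hab : a ≠ b) (x : V n)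
    (ha : x ∈ L a) (hb' : x ∈ L b) : x = 0 := by
  have h1 := bfa1 h hb (fun c => (if c = a then x else 0) - (if c = b then x else 0))
    (fun c => by
      refine (L c).sub_mem ?_ ?_
      · split_ifs with hc
        · rw [hc]; exact ha
        · exact (L c).zero_mem
      · split_ifs with hc
        · rw [hc]; exact hb'
        · exact (L c).zero_mem)
    (by
      rw [Finset.sum_sub_distrib, Finset.sum_ite_eq' Finset.univ a,
        Finset.sum_ite_eq' Finset.univ b, if_pos (Finset.mem_univ a), if_pos (Finset.mem_univ b),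
        sub_self]) a
  simpa [hab] using h1

theorem bfa : BfaStmt := by
  intro n C Γ h K L w β hb
  refine ⟨fun x hx hs a => bfa1 h hb x hx hs a, fun x hx => ⟨fun hs a => bfa2a h hb x hx hs a,
    fun hu => bfa2b h hb x hu⟩, fun a => ?_, fun x hx => bfa4 x hx,
    fun a b hab x ha hb' => bfa5 h hb a b hab x ha hb', fun a x hx hx0 => ?_⟩
  · refine bfa2a h hb (ys w β) (ys_mem hb) ?_ a
    rw [ys_sum]
    exact sum_w_mem hb
  · by_contra hcon
    push Not at hcon
    have h1 := hb.bot a hcon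
    rw [h1] at hx
    exact hx0 ((Submodule.mem_bot ℝ).1 hx)

end Pool.Agent.PFJ.H90
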